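import Pool.Agent.H70.EN.Targets

/-!
# Row SBG of enm_modules: the mean over the blocks of a window of any length
-/

set_option autoImplicit false

namespace Pool.Agent.H46.EN

open Finset Pool.Agent.H6.N4D Pool.Agent.H93.EB Pool.Agent.H70.EN

theorem pf_SBG (h1 : T_MBD) (h2 : T_CMP) (h3 : T_SBL) : T_SBG := by
  intro lam H N n hlam hN hNH
  set J : ℕ := H / N with hJ
  have hJ1 : 1 ≤ J := (Nat.one_le_div_iff (by omega)).mpr hNH
  have hJH : J * N ≤ H := Nat.div_mul_le_self H N
  have hJH' : H < J * N + N := by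
    have h4 := Nat.lt_div_mul_add (a := H) (b := N) (by omega)
    exact h4
  have hH0 : (0 : ℝ) < H := by
    have : 0 < H := by omega
    exact_mod_cast this
  have hM := (h1 lam 1 (J * N) n hlam).1
  have h4 := h2 lam H n (J * N) n hlam
  have e1 : (Ioc n (n + J * N) \ Ioc n (n + H)) = ∅ := by
    rw [Finset.sdiff_eq_empty_iff_subset]
    exact Finset.Ioc_subset_Ioc_right (by omega)
  have e2 : ((Ioc n (n + H) \ Ioc n (n + J * N)).card : ℝ) ≤ N := by
    have h5 : (Ioc n (n + H) \ Ioc n (n + J * N)) ⊆ Ioc (n + J * N) (n + H) := by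
      intro x hx
      simp only [Finset.mem_sdiff, Finset.mem_Ioc] at hx ⊢
      omega
    have h6 := Finset.card_le_card h5
    rw [Nat.card_Ioc] at h6
    have h7 : (Ioc n (n + H) \ Ioc n (n + J * N)).card ≤ N := by omega
    exact_mod_cast h7
  rw [e1, Finset.card_empty, Nat.cast_zero, add_zero] at h4
  have h5 : ((J * N : ℕ) : ℝ) * M lam (J * N) n ≤ H * M lam (J * N) n :=
    mul_le_mul_of_nonneg_right (by exact_mod_cast hJH) hM
  have h6 : (H : ℝ) * M lam H n ≤ H * M lam (J * N) n + N := by linarith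
  have h7 : M lam H n ≤ M lam (J * N) n + (N : ℝ) / H := by
    have h8 : M lam (J * N) n + (N : ℝ) / H = (H * M lam (J * N) n + N) / H := by
      field_simp
    rw [h8, le_div_iff₀ hH0]
    linarith
  have h8 := h3 lam J N n hJ1 hN
  linarith

end Pool.Agent.H46.EN
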