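import Pool.Agent.H28.EN.Targets

/-!
# Row SPL of en1_modules: the correlation on a window is the mean of those on its parts
-/

set_option autoImplicit false

open Finset Pool.Agent.H6.N4D Pool.Agent.H93.EB Pool.Agent.H28.EN

namespace Pool.Agent.H46.EN

/-- a sum over a window is the sum of the sums over its parts -/
theorem sum_parts {A : Type} [AddCommMonoid A] (F : ℕ → A) (N n J : ℕ) :
    ∑ m ∈ Ioc n (n + J * N), F m =
      ∑ j ∈ range J, ∑ m ∈ Ioc (n + j * N) (n + j * N + N), F m := by
  induction J with
  | zero => simp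
  | succ J ih =>
    rw [Finset.sum_range_succ, ← ih]
    have h1 : n + (J + 1) * N = n + J * N + N := by ring
    rw [h1, Finset.sum_Ioc_consecutive F (by omega) (by omega)]

theorem pf_SPL : T_SPL := by
  intro f N J n hN hJ
  have hN0 : (N : ℂ) ≠ 0 := by
    have : N ≠ 0 := by omega
    exact_mod_cast this
  have hJ0 : (J : ℂ) ≠ 0 := by
    have : J ≠ 0 := by omega
    exact_mod_cast this
  have hN1 : (N : ℝ) ≠ 0 := by
    have : N ≠ 0 := by omega
    exact_mod_cast this
  have hJ1 : (J : ℝ) ≠ 0 := by
    have : J ≠ 0 := by omega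
    exact_mod_cast this
  constructor
  · intro θ
    unfold cr
    rw [sum_parts, ← Finset.sum_div]
    push_cast
    field_simp
  · intro θ φ
    unfold G
    rw [sum_parts, ← Finset.sum_div]
    push_cast
    field_simp

end Pool.Agent.H46.EN
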