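import Pool.Agent.H65.EN.Targets
import Pool.Agent.H70.LV.ARP
import Pool.Agent.H12.LV.ARI

/-!
# Row ARX of the board enx: the arithmetic majorant with the number of divisors (helper46)

The constants are products over the primes; this is the proof of the row ARP (helper70) and of the
row ARI (helper12) without the last estimate.
-/

set_option autoImplicit false

open Finset Polynomial

namespace Pool.Agent.H46.EN

open Pool.Agent.H65.EN
open Pool.Agent.H26.LV (T_PPA T_PPB T_MUL Maj AA Prm)
open Pool.Agent.H70.LV (Maj_mono AA_one AA_nonneg PP PP_mul Prm_mul)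
open Pool.Agent.H12.LV (FP FP_natDegree FP_coeff Al_eq)

theorem PP_le {D : ℝ} (hD : 0 ≤ D) {a : ℕ} (ha : D ≤ 2 ^ a) {q : ℕ} (hq : 1 ≤ q) :
    PP D q ≤ (tau q : ℝ) ^ (2 + a) := by
  unfold PP tau
  rw [Nat.card_divisors (by omega)]
  push_cast
  rw [← Finset.prod_pow]
  refine Finset.prod_le_prod (fun p _ => by positivity) fun p hp => ?_
  have hpp := Nat.prime_of_mem_primeFactors hp
  have h1 : 0 < q.factorization p :=
    hpp.factorization_pos_of_dvd (by omega) (Nat.dvd_of_mem_primeFactors hp)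
  have h2 : (1 : ℝ) ≤ (q.factorization p : ℝ) := by exact_mod_cast h1
  have h3 : (2 : ℝ) ≤ (q.factorization p : ℝ) + 1 := by linarith
  calc D * ((q.factorization p : ℝ) + 1) ^ 2 ≤
      ((q.factorization p : ℝ) + 1) ^ a * ((q.factorization p : ℝ) + 1) ^ 2 := by
        apply mul_le_mul_of_nonneg_right _ (by positivity)
        exact ha.trans (pow_le_pow_left₀ (by norm_num) h3 a)
    _ = ((q.factorization p : ℝ) + 1) ^ (2 + a) := by rw [← pow_add, add_comm a 2]

/-- the majorant for polynomials, the constants are products over the primes -/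
theorem key {k : ℕ} (hk : 2 ≤ k) (hPPA : T_PPA) (hPPB : T_PPB) (hMUL : T_MUL) :
    ∃ D : ℝ, 1 ≤ D ∧ ∀ q : ℕ, 1 ≤ q → ∀ F : ℤ[X], F.natDegree ≤ k →
      (∀ p ∈ q.primeFactors, Prm p F) →
      Maj q (AA q F) (PP D q) (PP D q * (q : ℝ) ^ (-(2 / (k : ℝ)))) := by
  obtain ⟨CA, hCA, hA⟩ := hPPA k hk
  obtain ⟨CB, hCB, hB⟩ := hPPB k hk
  obtain ⟨hM1, hM2, hM3⟩ := hMUL
  set D := max CA CB with hD
  have hD1 : 1 ≤ D := hCA.trans (le_max_left _ _)
  have key : ∀ q : ℕ, 1 ≤ q → ∀ F : ℤ[X], F.natDegree ≤ k → (∀ p ∈ q.primeFactors, Prm p F) →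
      Maj q (AA q F) (PP D q) (PP D q * (q : ℝ) ^ (-(2 / (k : ℝ)))) := by
    intro q
    induction q using Nat.recOnPosPrimePosCoprime with
    | prime_pow p m hp hm =>
      intro _ F hF hPrm
      have hpf : (p ^ m).primeFactors = {p} := Nat.primeFactors_prime_pow hm.ne' hp
      have hP : PP D (p ^ m) = D * ((m : ℝ) + 1) ^ 2 := by
        unfold PP
        rw [hpf, Finset.prod_singleton, hp.factorization_pow, Finsupp.single_eq_same]
      have hpr := hPrm p (by rw [hpf]; exact Finset.mem_singleton_self p)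
      have hx : (0 : ℝ) ≤ ((p : ℝ) ^ m) ^ (-(2 / (k : ℝ))) := by positivity
      rw [hP, Nat.cast_pow]
      rcases lt_or_ge k p with h | h
      · refine Maj_mono (hA p m F hp h hF hpr) ?_ ?_
        · exact mul_le_mul_of_nonneg_right (le_max_left _ _) (by positivity)
        · apply mul_le_mul_of_nonneg_right _ hx
          exact mul_le_mul_of_nonneg_right (le_max_left _ _) (by positivity)
      · refine Maj_mono (hB p m F hp h hF hpr) ?_ ?_
        · exact mul_le_mul_of_nonneg_right (le_max_right _ _) (by positivity)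
        · apply mul_le_mul_of_nonneg_right _ hx
          exact mul_le_mul_of_nonneg_right (le_max_right _ _) (by positivity)
    | zero => intro h; omega
    | one =>
      intro _ F _ _
      refine ⟨1, fun _ => 1, fun _ => 1, fun _ => 0, fun _ => ⟨zero_le_one, one_dvd _⟩, ?_, ?_, ?_⟩
      · intro l
        rw [AA_one]
        simp
      · unfold PP
        simp
      · unfold PP
        simp
    | coprime a b ha hb hab iha ihb =>
      intro _ F hF hPrm
      obtain ⟨c₁, c₂, hc₁, hc₂, hAA⟩ := hM1 a b F ha.le hb.le hab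
      have ha0 : a ≠ 0 := by omega
      have hb0 : b ≠ 0 := by omega
      have h1 := iha ha.le (C c₁ * F) ((natDegree_C_mul_le _ _).trans hF) (by
        intro p hp
        refine Prm_mul (Nat.prime_of_mem_primeFactors hp) (Nat.dvd_of_mem_primeFactors hp) hc₁
          (hPrm p ?_)
        rw [Nat.Coprime.primeFactors_mul hab]
        exact Finset.mem_union_left _ hp)
      have h2 := ihb hb.le (C c₂ * F) ((natDegree_C_mul_le _ _).trans hF) (by
        intro p hp
        refine Prm_mul (Nat.prime_of_mem_primeFactors hp) (Nat.dvd_of_mem_primeFactors hp) hc₂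
          (hPrm p ?_)
        rw [Nat.Coprime.primeFactors_mul hab]
        exact Finset.mem_union_right _ hp)
      have h3 := hM3 a b _ _ _ _ _ _ ha.le hb.le hab (fun l => AA_nonneg _ _ _)
        (fun l => AA_nonneg _ _ _) (hM2 a c₁ _ _ _ hc₁ h1) (hM2 b c₂ _ _ _ hc₂ h2)
      have h4 : (fun l => AA a (C c₁ * F) (c₁ * l) * AA b (C c₂ * F) (c₂ * l)) =
          AA (a * b) F := by
        funext l
        exact (hAA l).symm
      rw [h4] at h3
      rw [PP_mul D ha0 hb0 hab]
      refine Maj_mono h3 le_rfl (le_of_eq ?_)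
      rw [Nat.cast_mul, Real.mul_rpow (Nat.cast_nonneg _) (Nat.cast_nonneg _)]
      ring
  exact ⟨D, hD1, key⟩

theorem pf_ARX (h1 : T_PPA) (h2 : T_PPB) (h3 : T_MUL) : T_ARX := by
  intro k hk
  obtain ⟨D, hD, hkey⟩ := key hk h1 h2 h3
  obtain ⟨a, ha⟩ := pow_unbounded_of_one_lt D (one_lt_two : (1 : ℝ) < 2)
  refine ⟨2 + a, fun q f hq hf => ?_⟩
  rw [Al_eq]
  have hP := PP_le (by linarith : 0 ≤ D) ha.le hq
  refine Maj_mono (hkey q hq (FP f) (FP_natDegree f) ?_) hP
    (mul_le_mul_of_nonneg_right hP (by positivity))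
  intro p hp
  have hpp := Nat.prime_of_mem_primeFactors hp
  have hpq := Nat.dvd_of_mem_primeFactors hp
  by_contra hcon
  have h1 : ∀ i : Fin k, i.val ≠ 0 → (p : ℤ) ∣ f i := by
    intro i hi
    by_contra h
    apply hcon
    refine ⟨i.val + 1, by omega, ?_⟩
    rw [FP_coeff f i hi]
    exact h
  exact hpp.one_lt.ne' (hf p hpq h1)

end Pool.Agent.H46.EN
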